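import Pool.Agent.E8helper60.AW.Cls

/-!
# The blockwise Alperin weight conjecture: one congruence, or an approximate equality, decides

Let `p` be a prime, `F` an algebraically closed field of characteristic `p` and `red` a ring
homomorphism from the ring of the algebraic integers of `ℂ` to `F`. A block of the finite group `G`
is given by its central character `B`, an `F`-algebra homomorphism from the centre of `F[G]` (the
class functions `G → F`, with the convolution) to `F` (`IsBlock`). Notation:

* `numIrrBlock B = l(B)`: the number of the irreducible characters of `G` over `F` in `B`;
* `numWtBlock p red Q B`: the number of the irreducible characters of `N_G(Q)/Q` of `p`-defect zero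
  such that the block of `G` induced by the block of the inflation is `B`;
* `numWts p red B = w(B)`: the number of the `G`-classes of weights of `B`, the sum of these numbers
  over the classes of `p`-subgroups `Q`;
* `BAWC p red G`: the blockwise Alperin weight conjecture `l(B) = w(B)` for all blocks `B` of `G`;
* `Reduced p G`: `G` has no normal subgroup of index `p` and no nontrivial normal `p`-subgroup;
* `Closed p X`: the class `X` of groups is closed under isomorphisms, subgroups and quotients by
  normal `p`-subgroups;
* `G ≀ᵣ C` (`RegularWreathProduct G C`): the wreath product of `G` with a group `C` of prime order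
  `q`; a block `B'` of `G ≀ᵣ C` lies over `B ⊗ ⋯ ⊗ B` (`LiesOver B B'`) if `B'` has the value
  `B(f)^q` at `f ⊗ ⋯ ⊗ f`, for all class functions `f` on `G`.

The proof. Both sides of the conjecture are computed exactly for the wreath product, independently:
if `B'` runs over the blocks of `G ≀ᵣ C` over `B ⊗ ⋯ ⊗ B`, then

  `q ∑ l(B') = l(B)^q + a l(B)`  and  `q ∑ w(B') = w(B)^q + a w(B)`,

with `a = q² - 1` if `q ≠ p`, and `a = p - 1` if `q = p`.

* For the weights: let `N` be a normal subgroup of `Γ` of prime index `q` and let `z` be a central
  element of `F[Γ]` supported on `N`. Then `∑_Q |N_Γ(Q)| #{χ}` over the weights `(Q, χ)` of `Γ` on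
  which `z` acts as `c` is the same sum for `N`, plus `a` times the part of the sum for `N` coming
  from the weights which are fixed, up to `N`-conjugacy, by an element outside of `N`. This is
  Clifford theory for `q ≠ p`, and it is proved with the theorem of Dade, Glauberman and Nagao
  for `q = p`. The weights of a direct power are the products of weights, and a product of weights
  is fixed if and only if the factors are conjugate.
* For the irreducible characters, by counting the dimension of the class functions on the
  `p`-regular elements of the wreath product, coset by coset.

If `l(B) ≡ w(B)` modulo `q` for a block and `l(B') ≡ w(B')` modulo `q^k` for the blocks above, then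
the formulas give `l(B) ≡ w(B)` modulo `q^(k+1)`, since `∑ l^i w^(q-1-i)` is divisible by `q` and
`a` is congruent to `-1` modulo `q`. So one congruence for the iterated wreath products gives
all congruences modulo the powers of `q`, and the equality. For `q ≠ p` the wreath products of
reduced groups are reduced, and the conjecture for the reduced groups in `X` gives it for all finite
groups in `X`. The last part is proved with direct powers.
-/

set_option autoImplicit false

open scoped Classical

noncomputable section

namespace Pool.Agent.Results.MP_78bba1_al.OneCongruenceH60

open Pool.Agent.Y63.NV (IsIrrTrace IsClassFun IsBlock IsWt centralValue numIrrBlock numWtBlock BAWC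
  Closed Reduced)
open Pool.Agent.Y63.AWC (pSubgroupSetoid)

section

variable {F : Type} [Field F] {G : Type} [Group G]

/-- `w(B)`: the number of the conjugacy classes of weights of the block `B` -/
def numWts (p : ℕ) (red : integralClosure ℤ ℂ →+* F) (B : (G → F) → F) : ℕ :=
  ∑ᶠ c : Quotient (pSubgroupSetoid p G), numWtBlock p red c.out.1 B

/-- The element `f ⊗ ⋯ ⊗ f` of the group algebra of the base group of the wreath product
`G ≀ᵣ C`, extended by zero. -/
def pw (G C : Type) [Group G] [Group C] [Fintype C] {F : Type} [Field F] (f : G → F) :
    RegularWreathProduct G C → F :=
  fun s => if s.right = 1 then ∏ i, f (s.left i) else 0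

/-- The block `B'` of the wreath product `G ≀ᵣ C` lies over the block `B ⊗ ⋯ ⊗ B`. -/
def LiesOver {C : Type} [Group C] [Fintype C] (B : (G → F) → F)
    (B' : (RegularWreathProduct G C → F) → F) : Prop :=
  ∀ f : G → F, IsClassFun f → B' (pw G C f) = B f ^ Nat.card C

end

/-- **One congruence, or an approximate equality, decides the blockwise weight conjecture.**
Let `C` be a group of prime order `q` (`q = p` is allowed), let `X` be a class of groups closed under
isomorphisms, subgroups, quotients by normal `p`-subgroups and wreath products with `C` (for example
all groups), let `m` be a multiple of `q` and let `N` be a natural number. The following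
are equivalent:

(i) the blockwise Alperin weight conjecture holds for all finite groups in `X`;

(ii) `l(B') ≡ w(B')` modulo `m` for all blocks `B'` of `G ≀ᵣ C` over `B ⊗ ⋯ ⊗ B`, for all blocks `B`
of all finite groups `G` in `X` with `|G| ≥ N`, where if `q ≠ p` only the reduced groups `G` (without
normal subgroups of index `p` and without nontrivial normal `p`-subgroups) are needed;

(iii) for each `ε > 0` there is a constant `c` with `l(B) ≤ c |G|^ε w(B)` and `w(B) ≤ c |G|^ε l(B)`
for all blocks `B` of all reduced finite groups `G` in `X`. -/
theorem result (p : ℕ) [Fact p.Prime] (F : Type) [Field F] [IsAlgClosed F] [CharP F p]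
    (red : integralClosure ℤ ℂ →+* F) (q : ℕ) (hq : q.Prime) (C : Type) [Group C] [Fintype C]
    (hC : Nat.card C = q) (X : ∀ (G : Type) [Group G], Prop) (hX : Closed p X)
    (hwr : ∀ (G : Type) [Group G] [Finite G], X G → X (RegularWreathProduct G C))
    (m N : ℕ) (hm : q ∣ m) :
    List.TFAE [
      -- (i)
      ∀ (G : Type) [Group G] [Finite G], X G → BAWC p red G,
      -- (ii)
      ∀ (G : Type) [Group G] [Finite G], N ≤ Nat.card G → X G → (q ≠ p → Reduced p G) →
        ∀ B : (G → F) → F, IsBlock B → ∀ B' : (RegularWreathProduct G C → F) → F, IsBlock B' →
          LiesOver B B' → numIrrBlock B' ≡ numWts p red B' [MOD m],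
      -- (iii)
      ∀ ε : ℝ, 0 < ε → ∃ c : ℝ, ∀ (G : Type) [Group G] [Finite G], X G → Reduced p G →
        ∀ B : (G → F) → F, IsBlock B →
          (numIrrBlock B : ℝ) ≤ c * (Nat.card G : ℝ) ^ ε * numWts p red B ∧
          (numWts p red B : ℝ) ≤ c * (Nat.card G : ℝ) ^ ε * numIrrBlock B] :=
  Pool.Agent.E8helper60.AW.cls_tfae (p := p) red q hq C hC X hX hwr m N hm

end Pool.Agent.Results.MP_78bba1_al.OneCongruenceH60
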