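import Pool.Agent.E8helper60.AW.Cls

/-!
# Alperin's weight conjecture for principal blocks: one congruence modulo `p` decides

Let `p` be a prime, `F` an algebraically closed field of characteristic `p` and `red` a ring
homomorphism from the ring of the algebraic integers of `ℂ` to `F`. A block of the finite group `G`
is given by its central character, an `F`-algebra homomorphism from the centre of `F[G]` (the class
functions `G → F`, with the convolution) to `F` (`IsBlock`); the one of the principal block `B₀(G)`
is the augmentation map `principal F G`. Notation:

* `numIrrBlock B = l(B)`: the number of the irreducible characters of `G` over `F` in `B`;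
* `numWtBlock p red Q B`: the number of the irreducible characters of `N_G(Q)/Q` of `p`-defect zero
  such that the block of `G` induced by the block of the inflation is `B`;
* `numWts p red B = w(B)`: the number of the `G`-classes of weights of `B`, the sum of these numbers
  over the classes of `p`-subgroups `Q`;
* `G ≀ᵣ C` (`RegularWreathProduct G C`): the wreath product of `G` with a group `C` of order `p`.

The principal block of `G ≀ᵣ C` is the only block over `B₀(G) ⊗ ⋯ ⊗ B₀(G)`, and the theorem follows
from the exact formulas `p l(B₀(G ≀ᵣ C)) = l^p + (p - 1) l` and `p w(B₀(G ≀ᵣ C)) = w^p + (p - 1) w`,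
where `l = l(B₀(G))` and `w = w(B₀(G))`. The formula for the weights is proved with the
correspondence of Dade, Glauberman and Nagao.
-/

set_option autoImplicit false

open scoped Classical

noncomputable section

namespace Pool.Agent.Results.MP_78bba1_al.PrincipalBlocksH60

open Pool.Agent.Y63.NV (IsIrrTrace IsClassFun IsBlock IsWt centralValue numIrrBlock numWtBlock)
open Pool.Agent.Y63.AWC (pSubgroupSetoid)

section

variable {F : Type} [Field F] {G : Type} [Group G]

/-- `w(B)`: the number of the conjugacy classes of weights of the block `B` -/
def numWts (p : ℕ) (red : integralClosure ℤ ℂ →+* F) (B : (G → F) → F) : ℕ :=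
  ∑ᶠ c : Quotient (pSubgroupSetoid p G), numWtBlock p red c.out.1 B

/-- the principal block of `G`: the augmentation map -/
def principal (F : Type) [Field F] (G : Type) [Group G] : (G → F) → F := fun f => ∑ᶠ g : G, f g

end

/-- **One congruence modulo `p`, or an approximate equality, decides the weight conjecture for
principal blocks.** Let `C` be a group of order `p` and let `X` be a class of groups which is closed
under wreath products with `C` and which contains, with each finite group `G`, infinitely many of
its powers `G^n` (for example all groups). Let `m` be a multiple of `p` and `N` a natural number. The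
following are equivalent:

(i) `l(B₀(G)) = w(B₀(G))` for all finite groups `G` in `X`;

(ii) `l(B₀(G ≀ᵣ C)) ≡ w(B₀(G ≀ᵣ C))` modulo `m` for all finite groups `G` in `X` with `|G| ≥ N`;

(iii) for each `ε > 0` there is a constant `c` with `l(B₀(G)) ≤ c |G|^ε w(B₀(G))` and
`w(B₀(G)) ≤ c |G|^ε l(B₀(G))` for all finite groups `G` in `X`. -/
theorem result (p : ℕ) [Fact p.Prime] (F : Type) [Field F] [IsAlgClosed F] [CharP F p]
    (red : integralClosure ℤ ℂ →+* F) (C : Type) [Group C] [Fintype C] (hC : Nat.card C = p)
    (m : ℕ) (hm : p ∣ m) (N : ℕ) (X : ∀ (G : Type) [Group G], Prop)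
    (hwr : ∀ (G : Type) [Group G] [Finite G], X G → X (RegularWreathProduct G C))
    (hpow : ∀ (G : Type) [Group G] [Finite G], X G → ∀ n₀ : ℕ, ∃ n, n₀ ≤ n ∧ X (Fin n → G)) :
    List.TFAE [
      -- (i)
      ∀ (G : Type) [Group G] [Finite G], X G →
        numIrrBlock (principal F G) = numWts p red (principal F G),
      -- (ii)
      ∀ (G : Type) [Group G] [Finite G], N ≤ Nat.card G → X G →
        numIrrBlock (principal F (RegularWreathProduct G C)) ≡
          numWts p red (principal F (RegularWreathProduct G C)) [MOD m],
      -- (iii)
      ∀ ε : ℝ, 0 < ε → ∃ c : ℝ, ∀ (G : Type) [Group G] [Finite G], X G →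
        (numIrrBlock (principal F G) : ℝ) ≤
          c * (Nat.card G : ℝ) ^ ε * numWts p red (principal F G) ∧
        (numWts p red (principal F G) : ℝ) ≤
          c * (Nat.card G : ℝ) ^ ε * numIrrBlock (principal F G)] :=
  Pool.Agent.E8helper60.AW.prin_tfae (p := p) red C hC m hm N X hwr hpow

end Pool.Agent.Results.MP_78bba1_al.PrincipalBlocksH60
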