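import Pool.Agent.E8helper46.AW.Main

/-!
# The blockwise Alperin weight conjecture for odd primes: parities of real blocks decide

Let `p` be an odd prime, `F` an algebraically closed field of characteristic `p` and
`red` a ring homomorphism from the ring of the algebraic integers of `ℂ` to `F`. A block of `G` is
given by its central character, an `F`-algebra homomorphism `B` from the centre of `F[G]` (the class
functions `G → F`) to `F`. Notation:

* `numIrrBlock B = l(B)`: the number of the irreducible characters of `G` over `F` in `B`;
* `numWtBlock p red Q B`: the number of the irreducible characters of `N_G(Q)/Q` of `p`-defect zero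
  such that the block of `G` induced by the block of the inflation is `B`;
* `BAWC p red G`: the blockwise Alperin weight conjecture for the finite group `G`, i.e.
  `l(B) = ∑_Q numWtBlock p red Q B` for all blocks `B` of `G`, the sum over the classes of
  `p`-subgroups;
* `Reduced p G`: `G` has no normal subgroup of index `p` and no nontrivial normal `p`-subgroup;
* `Wr G`: the wreath product of `G` with the group of order two.

Proof. Write `w(B)` for the number of the weights of `B`. (a) If `l(B) ≡ w(B)` modulo two for the
real blocks of the reduced groups in `X` then the same holds for the real blocks of all groups in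
`X`: the numbers of the blocks with a given value at a symmetric class function are compared, the
blocks which are not real cancel in pairs, and a real block is determined by its values at the
symmetric class functions. (b) For real blocks the alternating sum `K(B)` of the numbers of the
ordinary characters of the chain stabilisers is then congruent modulo two to the number of the
characters of defect zero. (c) For the block of `G ≀ C₂` above `B ⊗ B`, `B` of positive defect,
`2 K = K(B) (K(B) + 3)`; hence if `K` is even for all the iterated wreath products then `K(B) = 0`.
For blocks `B ≠ B'` of positive defect the block of `G ≀ C₂` above `B ⊗ B'` has `K = K(B) K(B')`; for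
`B'` the dual of `B` it is real and gives `K(B)² = 0`. (d) For blocks of defect zero `K(B) = 1`. So
the blockwise Knörr-Robinson equality holds for all groups in `X`, and this implies the blockwise
weight conjecture by induction.
-/

set_option autoImplicit false

noncomputable section

namespace Pool.Agent.Results.MP_78bba1_al.RealBlocksParityH46

open Pool.Agent.Y63.NV (IsIrrTrace IsClassFun IsBlock IsWt centralValue numIrrBlock numWtBlock BAWC
  Closed Reduced)
open Pool.Agent.Y63.AWC (pSubgroupSetoid)
open Pool.Agent.Q90.WR (Wr)

section

variable {F : Type} [Field F] {G : Type} [Group G]

/-- The block `B` is real, i.e. equal to its dual block: `B(f) = B(f°)` for all class functions `f`,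
where `f°(x) = f(x⁻¹)`. -/
def IsRealBlock (B : (G → F) → F) : Prop :=
  ∀ f : G → F, IsClassFun f → B (fun x => f x⁻¹) = B f

/-- The number of the self-dual irreducible characters `φ` of `G` over `F` in the block `B`. -/
def numSelfDualIrr (B : (G → F) → F) : ℕ :=
  Nat.card {φ : G → F // (IsIrrTrace φ ∧
    ∀ f : G → F, IsClassFun f → ∀ x : G, ∑ᶠ g : G, f g * φ (g * x) = B f * φ x) ∧
    ∀ g : G, φ g⁻¹ = φ g}

/-- The number of the conjugacy classes of weights of the block `B`. -/
def numWts (p : ℕ) (red : integralClosure ℤ ℂ →+* F) (B : (G → F) → F) : ℕ :=
  ∑ᶠ c : Quotient (pSubgroupSetoid p G), numWtBlock p red c.out.1 B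

/-- The number of the conjugacy classes of real-valued weights of the block `B`: the weights `(Q, χ)`
of `B` such that `χ`, a character of `N_G(Q)/Q` of defect zero, is real valued. -/
def numRealWts (p : ℕ) (red : integralClosure ℤ ℂ →+* F) (B : (G → F) → F) : ℕ :=
  ∑ᶠ c : Quotient (pSubgroupSetoid p G),
    Nat.card {χ : Subgroup.normalizer (c.out.1 : Set G) → ℂ //
      (IsWt p (c.out.1.subgroupOf (Subgroup.normalizer (c.out.1 : Set G))) χ ∧
      ∀ f : G → F, IsClassFun f → centralValue red χ (fun x => f x) = B f) ∧
      ∀ g, (χ g).im = 0}

end

/-- **Parities of real blocks decide the blockwise Alperin weight conjecture for odd primes.** Let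
`p` be an odd prime and let `X` be a class of groups closed under isomorphisms, subgroups, quotients
by normal `p`-subgroups and under `G ↦ G ≀ C₂` (for instance the class of all groups). The following
are equivalent:
(1) the blockwise Alperin weight conjecture holds for all finite groups in `X`;
(2) `l(B)` and the number of the classes of weights of `B` have the same parity, for all finite groups
`G` in `X` without normal subgroups of index `p` and without nontrivial normal `p`-subgroups, and all
real blocks `B` of `G`;
(3) for these `G` and `B`, the number of the self-dual irreducible characters of `G` over `F` in `B`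
and the number of the classes of real-valued weights of `B` have the same parity. -/
theorem result (p : ℕ) [Fact p.Prime] (hp2 : p ≠ 2) (F : Type) [Field F] [IsAlgClosed F] [CharP F p]
    (red : integralClosure ℤ ℂ →+* F) (X : ∀ (G : Type) [Group G], Prop) (hX : Closed p X)
    (hwr : ∀ (G : Type) [Group G], X G → X (Wr G)) :
    List.TFAE [
      ∀ (G : Type) [Group G] [Finite G], X G → BAWC p red G,
      ∀ (G : Type) [Group G] [Finite G], X G → Reduced p G → ∀ B : (G → F) → F, IsBlock B →
        IsRealBlock B → numIrrBlock B ≡ numWts p red B [MOD 2],
      ∀ (G : Type) [Group G] [Finite G], X G → Reduced p G → ∀ B : (G → F) → F, IsBlock B →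
        IsRealBlock B → numSelfDualIrr B ≡ numRealWts p red B [MOD 2]] :=
  Pool.Agent.E8helper46.AW.main_tfae hp2 red X hX hwr

end Pool.Agent.Results.MP_78bba1_al.RealBlocksParityH46
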