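import Pool.Agent.E8helper60.AW.Tot

/-!
# Weights and blocks of wreath products with a group of prime order

Let `p` be a prime, `F` an algebraically closed field of characteristic `p` and `red` a ring
homomorphism from the ring of the algebraic integers of `ℂ` to `F`. A block of the finite group `G`
is given by its central character `B`, an `F`-algebra homomorphism from the centre of `F[G]` (the
class functions `G → F`, with the convolution) to `F` (`IsBlock`). Notation:

* `numIrrBlock B = l(B)`: the number of the irreducible characters of `G` over `F` in `B`;
* `numWtBlock p red Q B`: the number of the irreducible characters of `N_G(Q)/Q` of `p`-defect zero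
  such that the block of `G` induced by the block of the inflation is `B`;
* `numWts p red B = w(B)`: the number of the `G`-classes of weights of `B`, the sum of these numbers
  over the classes of `p`-subgroups `Q`;
* `G ≀ᵣ C` (`RegularWreathProduct G C`): the wreath product of `G` with a group `C` of prime order
  `q`; a block `B'` of `G ≀ᵣ C` lies over `B ⊗ ⋯ ⊗ B` (`LiesOver B B'`) if `B'` has the value
  `B(f)^q` at `f ⊗ ⋯ ⊗ f`, for all class functions `f` on `G`.

The two formulas are proved independently.

* For the weights: let `N` be a normal subgroup of `Γ` of prime index `q` and let `z` be a central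
  element of `F[Γ]` supported on `N`. Then `∑_Q |N_Γ(Q)| #{χ}` over the weights `(Q, χ)` of `Γ` on
  which `z` acts as `c` is the same sum for `N`, plus `a` times the part of the sum for `N` coming
  from the weights which are fixed, up to `N`-conjugacy, by an element outside of `N`. This is
  Clifford theory for `q ≠ p`, and it is proved with the theorem of Dade, Glauberman and Nagao
  for `q = p`. The weights of a direct power are the products of weights, and a product of weights
  is fixed if and only if the factors are conjugate.
* For the irreducible characters, by counting the dimension of the class functions on the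
  `p`-regular elements of the wreath product, coset by coset.
-/

set_option autoImplicit false

open scoped Classical

noncomputable section

namespace Pool.Agent.Results.MP_78bba1_al.WreathFormulaH60

open Pool.Agent.Y63.NV (IsIrrTrace IsClassFun IsBlock IsWt centralValue numIrrBlock numWtBlock)
open Pool.Agent.Y63.AWC (pSubgroupSetoid)

section

variable {F : Type} [Field F] {G : Type} [Group G]

/-- `w(B)`: the number of the conjugacy classes of weights of the block `B` -/
def numWts (p : ℕ) (red : integralClosure ℤ ℂ →+* F) (B : (G → F) → F) : ℕ :=
  ∑ᶠ c : Quotient (pSubgroupSetoid p G), numWtBlock p red c.out.1 B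

/-- The element `f ⊗ ⋯ ⊗ f` of the group algebra of the base group of the wreath product
`G ≀ᵣ C`, extended by zero. -/
def pw (G C : Type) [Group G] [Group C] [Fintype C] {F : Type} [Field F] (f : G → F) :
    RegularWreathProduct G C → F :=
  fun s => if s.right = 1 then ∏ i, f (s.left i) else 0

/-- The block `B'` of the wreath product `G ≀ᵣ C` lies over the block `B ⊗ ⋯ ⊗ B`. -/
def LiesOver {C : Type} [Group C] [Fintype C] (B : (G → F) → F)
    (B' : (RegularWreathProduct G C → F) → F) : Prop :=
  ∀ f : G → F, IsClassFun f → B' (pw G C f) = B f ^ Nat.card C

end

/-- **Simple modules and weights of the blocks of wreath products with a group `C` of prime order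
`q`.** Let `B` be a block of the finite group `G`, and let `a = q² - 1` if `q ≠ p` and `a = p - 1` if
`q = p`. There is a finite set `S` of blocks of `G ≀ᵣ C` over `B ⊗ ⋯ ⊗ B`, containing exactly one
representative of each of them (two block functions are the same block if they agree on the class
functions), with a single element if `q = p`, such that

`q ∑ l(B') = l(B)^q + a l(B)` and `q ∑ w(B') = w(B)^q + a w(B)`, with `B'` running over `S`.

Therefore `l(B) = w(B)` if and only if `∑ l(B') = ∑ w(B')`. For `q = p` this means that the weight
conjecture holds for the block `B` if and only if it holds for the block of `G ≀ᵣ C` over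
`B ⊗ ⋯ ⊗ B`. -/
theorem result (p : ℕ) [Fact p.Prime] (F : Type) [Field F] [IsAlgClosed F] [CharP F p]
    (red : integralClosure ℤ ℂ →+* F) (q : ℕ) (hq : q.Prime) (C : Type) [Group C] [Fintype C]
    (hC : Nat.card C = q) (G : Type) [Group G] [Finite G] (B : (G → F) → F) (hB : IsBlock B) :
    ∃ S : Finset ((RegularWreathProduct G C → F) → F),
      (∀ B' ∈ S, IsBlock B' ∧ LiesOver B B') ∧
      (∀ B'' : (RegularWreathProduct G C → F) → F, IsBlock B'' → LiesOver B B'' →
        ∃! B', B' ∈ S ∧ ∀ f : RegularWreathProduct G C → F, IsClassFun f → B'' f = B' f) ∧
      (q = p → S.card = 1) ∧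
      q * ∑ B' ∈ S, numIrrBlock B' =
        numIrrBlock B ^ q + (if q = p then p - 1 else q ^ 2 - 1) * numIrrBlock B ∧
      q * ∑ B' ∈ S, numWts p red B' =
        numWts p red B ^ q + (if q = p then p - 1 else q ^ 2 - 1) * numWts p red B ∧
      (numIrrBlock B = numWts p red B ↔ ∑ B' ∈ S, numIrrBlock B' = ∑ B' ∈ S, numWts p red B') := by
  obtain ⟨S, h1, h2, h3, h4, h5⟩ :=
    Pool.Agent.E8helper60.AW.formula' (p := p) red q hq hC hB
  have h4' : q * ∑ B' ∈ S, numIrrBlock B' =
      numIrrBlock B ^ q + (if q = p then p - 1 else q ^ 2 - 1) * numIrrBlock B := h4
  have h5' : q * ∑ B' ∈ S, numWts p red B' =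
      numWts p red B ^ q + (if q = p then p - 1 else q ^ 2 - 1) * numWts p red B := h5
  refine ⟨S, h1, h2, h3, h4', h5', ?_⟩
  have hq0 : 0 < q := hq.pos
  constructor
  · intro h
    rw [h, ← h5'] at h4'
    exact Nat.eq_of_mul_eq_mul_left hq0 h4'
  · intro h
    rw [h, h5'] at h4'
    rcases lt_trichotomy (numIrrBlock B) (numWts p red B) with h6 | h6 | h6
    · exfalso
      have h7 := Nat.pow_lt_pow_left h6 hq.ne_zero
      have h8 := Nat.mul_le_mul_left (if q = p then p - 1 else q ^ 2 - 1) h6.le
      omega
    · exact h6
    · exfalso
      have h7 := Nat.pow_lt_pow_left h6 hq.ne_zero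
      have h8 := Nat.mul_le_mul_left (if q = p then p - 1 else q ^ 2 - 1) h6.le
      omega

end Pool.Agent.Results.MP_78bba1_al.WreathFormulaH60
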